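import Pool.Agent.Y121.OL.Int

/-!
# Conjugate grading operators
-/

universe u v w

namespace Pool.Agent.Y121.OL

open Module

section alg

variable {V : Type v} [AddCommGroup V] [Module ℚ V] [FiniteDimensional ℚ V]

/-- `A` and `B` are conjugate by an element of `E`. -/
def Cj (E : Subalgebra ℚ (End ℚ V)) (A B : End ℚ V) : Prop :=
  ∃ g ∈ E, ∃ g' ∈ E, g' * g = 1 ∧ g * g' = 1 ∧ g * A = B * g

variable {E : Subalgebra ℚ (End ℚ V)}

omit [FiniteDimensional ℚ V] in
lemma Cj.trans {A B C : End ℚ V} (h : Cj E A B) (h' : Cj E B C) : Cj E A C := by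
  obtain ⟨g, hg, k, hk, h1, h2, h3⟩ := h
  obtain ⟨g', hg', k', hk', h1', h2', h3'⟩ := h'
  refine ⟨g' * g, E.mul_mem hg' hg, k * k', E.mul_mem hk hk', ?_, ?_, ?_⟩
  · calc k * k' * (g' * g) = k * (k' * g') * g := by noncomm_ring
      _ = 1 := by rw [h1', mul_one, h1]
  · calc g' * g * (k * k') = g' * (g * k) * k' := by noncomm_ring
      _ = 1 := by rw [h2, mul_one, h2']
  · calc g' * g * A = g' * (g * A) := by noncomm_ring
      _ = (g' * B) * g := by rw [h3]; noncomm_ring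
      _ = C * (g' * g) := by rw [h3']; noncomm_ring

omit [FiniteDimensional ℚ V] in
lemma Cj.neg {A B : End ℚ V} (h : Cj E A B) : Cj E (-A) (-B) := by
  obtain ⟨g, hg, k, hk, h1, h2, h3⟩ := h
  exact ⟨g, hg, k, hk, h1, h2, by rw [mul_neg, neg_mul, h3]⟩

lemma pow_comm {θ x : End ℚ V} (h : θ * x - x * θ = x) (k : ℕ) :
    θ * x ^ k - x ^ k * θ = (k : ℚ) • x ^ k := by
  induction k with
  | zero => simp
  | succ k ih =>
    have e : θ * x ^ (k + 1) - x ^ (k + 1) * θ =
        (θ * x ^ k - x ^ k * θ) * x + x ^ k * (θ * x - x * θ) := by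
      rw [pow_succ]; noncomm_ring
    rw [e, ih, h, smul_mul_assoc, ← pow_succ, Nat.cast_succ, add_smul, one_smul]

lemma nilp {θ x : End ℚ V} (h : θ * x - x * θ = x) : IsNilpotent x := by
  by_contra hn
  have hne : ∀ k, x ^ k ≠ 0 := fun k hk => hn ⟨k, hk⟩
  let Φ : End ℚ (End ℚ V) := LinearMap.mulLeft ℚ θ - LinearMap.mulRight ℚ θ
  have h1 : ∀ k : ℕ, Φ.HasEigenvalue (k : ℚ) := fun k =>
    Module.End.hasEigenvalue_of_hasEigenvector (x := x ^ k)
      ⟨Module.End.mem_eigenspace_iff.2 (by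
        change θ * x ^ k - x ^ k * θ = _
        exact pow_comm h k), hne k⟩
  have h2 := Φ.finite_hasEigenvalue
  have h3 : (Set.range fun k : ℕ => (k : ℚ)) ⊆ {μ | Φ.HasEigenvalue μ} := by
    rintro _ ⟨k, rfl⟩
    exact h1 k
  exact Set.infinite_range_of_injective Nat.cast_injective (h2.subset h3)

/-- Conjugation by the exponential. -/
lemma move {θ x : End ℚ V} (hx : x ∈ E) (h : θ * x - x * θ = x) : Cj E θ (θ + x) := by
  have hn := nilp h
  have hn' : IsNilpotent (-x) := hn.neg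
  have mem : ∀ y ∈ E, IsNilpotent.exp y ∈ E := by
    intro y hy
    rw [IsNilpotent.exp]
    exact E.sum_mem fun i _ => E.smul_mem (E.pow_mem hy i) _
  refine ⟨IsNilpotent.exp (-x), mem _ (E.neg_mem hx), IsNilpotent.exp x, mem _ hx,
    IsNilpotent.exp_mul_exp_neg_self hn, IsNilpotent.exp_neg_mul_exp_self hn, ?_⟩
  obtain ⟨n, hn2⟩ := hn'
  have hn3 : (-x) ^ (n + 1) = 0 := by rw [pow_succ, hn2, zero_mul]
  have hp : ∀ k : ℕ, θ * (-x) ^ k - (-x) ^ k * θ = (k : ℚ) • (-x) ^ k := by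
    intro k
    have e : (-x) ^ k = (-1 : ℚ) ^ k • x ^ k := by
      rw [← neg_one_smul ℚ x, smul_pow]
    rw [e, mul_smul_comm, smul_mul_assoc, ← smul_sub, pow_comm h, smul_comm]
  have e1 : θ * IsNilpotent.exp (-x) - IsNilpotent.exp (-x) * θ = -x * IsNilpotent.exp (-x) := by
    rw [IsNilpotent.exp_eq_sum hn3]
    conv_rhs => rw [← IsNilpotent.exp_eq_sum hn3, IsNilpotent.exp_eq_sum hn2]
    rw [Finset.mul_sum, Finset.sum_mul, Finset.mul_sum, ← Finset.sum_sub_distrib,
      Finset.sum_range_succ']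
    simp only [pow_zero, Nat.factorial_zero, Nat.cast_one, inv_one, one_smul, mul_one, one_mul,
      sub_self, add_zero]
    refine Finset.sum_congr rfl fun k _ => ?_
    rw [mul_smul_comm, smul_mul_assoc, ← smul_sub, hp, smul_smul, mul_smul_comm, ← pow_succ']
    congr 1
    rw [Nat.factorial_succ]
    push_cast
    have : (k : ℚ) + 1 ≠ 0 := by positivity
    have : (k.factorial : ℚ) ≠ 0 := by exact_mod_cast k.factorial_ne_zero
    field_simp
  have e2 : θ * IsNilpotent.exp (-x) - IsNilpotent.exp (-x) * θ + x * IsNilpotent.exp (-x) = 0 := by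
    rw [e1]; noncomm_ring
  have e3 : (θ + x) * IsNilpotent.exp (-x) - IsNilpotent.exp (-x) * θ = 0 := by
    rw [← e2]; noncomm_ring
  exact (sub_eq_zero.1 e3).symm

end alg

end Pool.Agent.Y121.OL
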