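import Mathlib

/-!
# Derived equivalent hyper-Kähler varieties: definitions
-/

universe u v w

namespace Pool.Agent.Y121.OL

set_option linter.checkUnivs false

section

variable {U V W : Type v} [AddCommGroup U] [Module ℚ U] [AddCommGroup V] [Module ℚ V]
  [AddCommGroup W] [Module ℚ W]

/-- The maps in `S` raise the degree by `n`. -/
def Raise (d : U →ₗ[ℚ] U) (d' : V →ₗ[ℚ] V) (S : Submodule ℚ (U →ₗ[ℚ] V)) (n : ℚ) : Prop :=
  ∀ f ∈ S, ∀ x, d' (f x) = f (d x) + n • f x

/-- `S` contains the identity. -/
def HasId (S : Submodule ℚ (U →ₗ[ℚ] U)) : Prop := LinearMap.id ∈ S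

/-- The compositions of maps in `S` and `S'` are in `S''`. -/
def CompIn (S : Submodule ℚ (U →ₗ[ℚ] V)) (S' : Submodule ℚ (V →ₗ[ℚ] W))
    (S'' : Submodule ℚ (U →ₗ[ℚ] W)) : Prop := ∀ f ∈ S, ∀ g ∈ S', g ∘ₗ f ∈ S''

/-- `f` and `g` are inverse to each other. -/
def Inverse (f : U →ₗ[ℚ] V) (g : V →ₗ[ℚ] U) : Prop := (∀ x, g (f x) = x) ∧ ∀ y, f (g y) = y

/-- Some maps in `S` and `S'` are inverse to each other. -/
def IsoIn (S : Submodule ℚ (U →ₗ[ℚ] V)) (S' : Submodule ℚ (V →ₗ[ℚ] U)) : Prop :=
  ∃ f ∈ S, ∃ g ∈ S', Inverse f g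

end

/-- The rational cohomology of the smooth projective complex varieties. -/
structure Cohomology where
  /-- the smooth projective varieties -/
  Var : Type u
  /-- the dimension -/
  dim : Var → ℕ
  /-- `H X`: the direct sum of the `H^i(X, ℚ)` -/
  H : Var → Type v
  [grp : ∀ X, AddCommGroup (H X)]
  [mod : ∀ X, Module ℚ (H X)]
  fin : ∀ X, FiniteDimensional ℚ (H X)
  /-- multiplication by `i` on `H^i(X, ℚ)` -/
  deg : ∀ X, H X →ₗ[ℚ] H X

attribute [instance] Cohomology.grp Cohomology.mod

/-- The maps between the cohomology spaces induced by cycles. -/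
structure CycleTheory extends Cohomology.{u, v} where
  /-- the maps `H X → H Y` induced by the rational cycles of codimension `dim X + j` on `X × Y` -/
  cor : ∀ X Y, ℤ → Submodule ℚ (H X →ₗ[ℚ] H Y)
  cor_deg : ∀ X Y j, Raise (deg X) (deg Y) (cor X Y j) (2 * j)
  cor_id : ∀ X, HasId (cor X X 0)
  cor_comp : ∀ X Y Z i j, CompIn (cor X Y i) (cor Y Z j) (cor X Z (i + j))

/-- The maps `H X → H Y` induced by rational cycles on `X × Y` of any codimensions. -/
def CycleTheory.mixed (T : CycleTheory.{u, v}) (X Y : T.Var) : Submodule ℚ (T.H X →ₗ[ℚ] T.H Y) :=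
  ⨆ j, T.cor X Y j

/-- The homological motives of `X` and `Y` are isomorphic: some cycles of codimension `dim X`
on `X × Y` and of codimension `dim Y` on `Y × X` induce inverse isomorphisms. -/
def CycleTheory.MotiveIso (T : CycleTheory.{u, v}) (X Y : T.Var) : Prop :=
  IsoIn (T.cor X Y 0) (T.cor Y X 0)

section

variable {N : Type w} [AddCommGroup N] [Module ℚ N]

/-- `b` is a nondegenerate symmetric bilinear form. -/
def IsForm (b : N → N → ℚ) : Prop :=
  (∀ x y z, b (x + y) z = b x z + b y z) ∧ (∀ (r : ℚ) x y, b (r • x) y = r * b x y) ∧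
    (∀ x y, b x y = b y x) ∧ ∀ x, (∀ y, b x y = 0) → x = 0

/-- The image of `z` under the element `x ∧ y` of the Lie algebra of the form `b`. -/
def rot (b : N → N → ℚ) (x y z : N) : N := b y z • x - b x z • y

/-- `act x y` is bilinear and alternating in `x` and `y`. -/
def IsAlternating {V : Type v} [AddCommGroup V] [Module ℚ V] (act : N → N → V →ₗ[ℚ] V) : Prop :=
  (∀ x y z, act (x + y) z = act x z + act y z) ∧ (∀ (r : ℚ) x y, act (r • x) y = r • act x y) ∧
    ∀ x y, act x y = -act y x

/-- The operators `act x y` satisfy the commutation relations of the elements `x ∧ y` of the Lie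
algebra of the form `b`. -/
def IsAction {V : Type v} [AddCommGroup V] [Module ℚ V] (b : N → N → ℚ)
    (act : N → N → V →ₗ[ℚ] V) : Prop :=
  ∀ x y z w a, act x y (act z w a) - act z w (act x y a) =
    act (rot b x y z) w a + act z (rot b x y w) a

end

/-- A quadratic space `N = ℚ α ⊕ N' ⊕ ℚ β`, where `α`, `β` are isotropic. -/
structure MukaiSpace where
  /-- the space -/
  N : Type w
  [grp : AddCommGroup N]
  [mod : Module ℚ N]
  /-- the form -/
  form : N → N → ℚ
  isForm : IsForm form
  /-- the isotropic vector in degree `-2` -/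
  α : N
  /-- the isotropic vector in degree `2` -/
  β : N
  form_α : form α α = 0
  form_β : form β β = 0
  form_αβ : form α β = -1
  ample : ∃ h, form α h = 0 ∧ form β h = 0 ∧ form h h ≠ 0

attribute [instance] MukaiSpace.grp MukaiSpace.mod

/-- The action of the Lie algebra `so(Ñ)` on `H X`, where `Ñ = ℚ α ⊕ NS(X) ⊕ ℚ β` is the extended
Néron-Severi space of a hyper-Kähler variety `X` (Verbitsky, Looijenga-Lunts, Taelman). For `λ` in
`NS(X)` the operator `act β λ` is the cup product with `λ`. -/
structure Extended (T : CycleTheory.{u, v}) (X : T.Var) where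
  /-- the extended Néron-Severi space with the extended Beauville-Bogomolov form -/
  L : MukaiSpace.{w}
  /-- the action -/
  act : L.N → L.N → T.H X →ₗ[ℚ] T.H X
  alt : IsAlternating act
  action : IsAction L.form act
  grading : ∀ a, T.deg X a = (T.dim X : ℚ) • a + (2 : ℚ) • act L.α L.β a
  /-- cup products with divisor classes are given by cycles on the diagonal -/
  cup : ∀ x, L.form L.β x = 0 → act L.β x ∈ T.cor X X 1

/-- What a derived equivalence of hyper-Kähler varieties induces on cohomology: inverse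
isomorphisms `v`, `v'` given by algebraic cycles (the Mukai vectors of the kernels), and a
compatible similarity of the extended Néron-Severi spaces. -/
structure Equivalence {T : CycleTheory.{u, v}} {X Y : T.Var} (M : Extended.{u, v, w} T X)
    (M' : Extended.{u, v, w} T Y) where
  dim_eq : T.dim X = T.dim Y
  /-- the action of the kernel on cohomology -/
  v : T.H X →ₗ[ℚ] T.H Y
  /-- its inverse -/
  v' : T.H Y →ₗ[ℚ] T.H X
  v_mem : v ∈ T.mixed X Y
  v'_mem : v' ∈ T.mixed Y X
  inv : Inverse v v'
  /-- the similarity -/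
  φ : M.L.N → M'.L.N
  surj : Function.Surjective φ
  /-- its factor -/
  c : ℚ
  c_ne : c ≠ 0
  form_φ : ∀ x y, M'.L.form (φ x) (φ y) = c * M.L.form x y
  act_φ : ∀ x y a, M'.act (φ x) (φ y) (v a) = c • v (M.act x y a)

end Pool.Agent.Y121.OL
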