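import Pool.Agent.Y121.OL.Defs

/-!
# Derived equivalent hyper-Kähler varieties: bilinear versions
-/

universe u v w

namespace Pool.Agent.Y121.OL

/-- A quadratic space with two isotropic vectors. -/
structure BMukai where
  N : Type w
  [grp : AddCommGroup N]
  [mod : Module ℚ N]
  form : N →ₗ[ℚ] N →ₗ[ℚ] ℚ
  form_comm : ∀ x y, form x y = form y x
  form_nondeg : ∀ x, (∀ y, form x y = 0) → x = 0
  α : N
  β : N
  form_α : form α α = 0
  form_β : form β β = 0
  form_αβ : form α β = -1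
  ample : ∃ h, form α h = 0 ∧ form β h = 0 ∧ form h h ≠ 0

attribute [instance] BMukai.grp BMukai.mod

/-- The action. -/
structure CycleTheory.BExtended (T : CycleTheory.{u, v}) (X : T.Var) where
  L : BMukai.{w}
  act : L.N →ₗ[ℚ] L.N →ₗ[ℚ] Module.End ℚ (T.H X)
  act_self : ∀ x, act x x = 0
  act_comm' : ∀ x y z w, act x y * act z w - act z w * act x y =
    act (L.form y z • x - L.form x z • y) w + act z (L.form y w • x - L.form x w • y)
  grading : T.deg X = (T.dim X : ℚ) • (1 : Module.End ℚ (T.H X)) + (2 : ℚ) • act L.α L.β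
  cup : ∀ x, L.form L.β x = 0 → act L.β x ∈ T.cor X X 1

/-- The equivalence. -/
structure BEquivalence {T : CycleTheory.{u, v}} {X Y : T.Var} (M : T.BExtended X)
    (M' : T.BExtended Y) where
  dim_eq : T.dim X = T.dim Y
  v : T.H X →ₗ[ℚ] T.H Y
  v' : T.H Y →ₗ[ℚ] T.H X
  v_mem : v ∈ T.mixed X Y
  v'_mem : v' ∈ T.mixed Y X
  v'_v : v' ∘ₗ v = LinearMap.id
  v_v' : v ∘ₗ v' = LinearMap.id
  φ : M.L.N → M'.L.N
  surj : Function.Surjective φ
  c : ℚ
  c_ne : c ≠ 0
  form_φ : ∀ x y, M'.L.form (φ x) (φ y) = c * M.L.form x y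
  act_φ : ∀ x y, M'.act (φ x) (φ y) ∘ₗ v = c • (v ∘ₗ M.act x y)

/-- Conversion. -/
noncomputable def toBM (L : MukaiSpace.{w}) : BMukai.{w} where
  N := L.N
  form := LinearMap.mk₂ ℚ L.form L.isForm.1 (fun r x y => L.isForm.2.1 r x y)
    (fun x y z => by
      rw [L.isForm.2.2.1 x, L.isForm.1, L.isForm.2.2.1 y, L.isForm.2.2.1 z])
    (fun r x y => by
      rw [L.isForm.2.2.1 x, L.isForm.2.1, L.isForm.2.2.1 y, smul_eq_mul])
  form_comm := L.isForm.2.2.1
  form_nondeg := L.isForm.2.2.2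
  α := L.α
  β := L.β
  form_α := L.form_α
  form_β := L.form_β
  form_αβ := L.form_αβ
  ample := L.ample

/-- The bilinear map. -/
noncomputable def bact {T : CycleTheory.{u, v}} {X : T.Var} (M : Extended.{u, v, w} T X) :
    M.L.N →ₗ[ℚ] M.L.N →ₗ[ℚ] Module.End ℚ (T.H X) :=
  LinearMap.mk₂ ℚ M.act M.alt.1 (fun r x y => M.alt.2.1 r x y)
    (fun x y z => by
      rw [M.alt.2.2 x, M.alt.1, neg_add, ← M.alt.2.2, ← M.alt.2.2])
    (fun r x y => by
      rw [M.alt.2.2 x, M.alt.2.1, ← smul_neg, ← M.alt.2.2])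

/-- Conversion. -/
noncomputable def toBE {T : CycleTheory.{u, v}} {X : T.Var} (M : Extended.{u, v, w} T X) :
    T.BExtended X where
  L := toBM M.L
  act := bact M
  act_self := fun x => by
    have h : M.act x x = -M.act x x := M.alt.2.2 x x
    have h2 : (2 : ℚ) • M.act x x = 0 := by
      rw [two_smul]
      nth_rewrite 1 [h]
      exact neg_add_cancel _
    exact (smul_eq_zero.1 h2).resolve_left two_ne_zero
  act_comm' := fun x y z w => LinearMap.ext fun a => M.action x y z w a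
  grading := LinearMap.ext fun a => M.grading a
  cup := M.cup

/-- Conversion. -/
noncomputable def toBQ {T : CycleTheory.{u, v}} {X Y : T.Var} {M : Extended.{u, v, w} T X}
    {M' : Extended.{u, v, w} T Y} (e : Equivalence M M') : BEquivalence (toBE M) (toBE M') where
  dim_eq := e.dim_eq
  v := e.v
  v' := e.v'
  v_mem := e.v_mem
  v'_mem := e.v'_mem
  v'_v := LinearMap.ext e.inv.1
  v_v' := LinearMap.ext e.inv.2
  φ := e.φ
  surj := e.surj
  c := e.c
  c_ne := e.c_ne
  form_φ := e.form_φ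
  act_φ := fun x y => LinearMap.ext fun a => e.act_φ x y a

end Pool.Agent.Y121.OL
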