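import Pool.Agent.Y121.OL.Conj

/-!
# Derived equivalent hyper-Kähler varieties
-/

universe u v w

namespace Pool.Agent.Y121.OL

open Module

variable {T : CycleTheory.{u, v}} {X Y Z : T.Var}

instance (X : T.Var) : FiniteDimensional ℚ (T.H X) := T.fin X

lemma mixed_of {j : ℤ} {f : T.H X →ₗ[ℚ] T.H Y} (hf : f ∈ T.cor X Y j) : f ∈ T.mixed X Y :=
  Submodule.mem_iSup_of_mem j hf

lemma mixed_comp {f : T.H X →ₗ[ℚ] T.H Y} {g : T.H Y →ₗ[ℚ] T.H Z} (hf : f ∈ T.mixed X Y)
    (hg : g ∈ T.mixed Y Z) : g ∘ₗ f ∈ T.mixed X Z := by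
  unfold CycleTheory.mixed at hf
  induction hf using Submodule.iSup_induction' with
  | mem i f hf =>
    unfold CycleTheory.mixed at hg
    induction hg using Submodule.iSup_induction' with
    | mem j g hg => exact mixed_of (T.cor_comp X Y Z i j f hf g hg)
    | zero => rw [LinearMap.zero_comp]; exact Submodule.zero_mem _
    | add a b _ _ ha hb => rw [LinearMap.add_comp]; exact Submodule.add_mem _ ha hb
  | zero => rw [LinearMap.comp_zero]; exact Submodule.zero_mem _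
  | add a b _ _ ha hb => rw [LinearMap.comp_add]; exact Submodule.add_mem _ ha hb

/-- The algebra of the operators given by cycles. -/
def EE (T : CycleTheory.{u, v}) (X : T.Var) : Subalgebra ℚ (End ℚ (T.H X)) where
  carrier := {f | f ∈ T.mixed X X}
  mul_mem' := fun ha hb => mixed_comp hb ha
  one_mem' := mixed_of (T.cor_id X)
  add_mem' := fun ha hb => (T.mixed X X).add_mem ha hb
  zero_mem' := (T.mixed X X).zero_mem
  algebraMap_mem' := fun c => by
    have h : algebraMap ℚ (End ℚ (T.H X)) c = c • (LinearMap.id : T.H X →ₗ[ℚ] T.H X) := by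
      rw [Algebra.algebraMap_eq_smul_one]
      rfl
    change algebraMap ℚ (End ℚ (T.H X)) c ∈ T.mixed X X
    rw [h]
    exact Submodule.smul_mem _ c (mixed_of (T.cor_id X))

section LLV

variable (M : T.BExtended X)

/-- The normalized operator of a pair. -/
noncomputable def Tm (x y : M.L.N) : End ℚ (T.H X) := (M.L.form x y)⁻¹ • M.act x y

lemma act_comm (x y z w : M.L.N) : M.act x y * M.act z w - M.act z w * M.act x y =
    M.act (M.L.form y z • x - M.L.form x z • y) w + M.act z (M.L.form y w • x - M.L.form x w • y) :=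
  M.act_comm' x y z w

lemma act_swap (x y : M.L.N) : M.act x y = -M.act y x := by
  have h := M.act_self (x + y)
  simp only [map_add, LinearMap.add_apply, M.act_self, zero_add, add_zero] at h
  rw [add_comm] at h
  exact eq_neg_of_add_eq_zero_left h

lemma Tm_swap (x y : M.L.N) : Tm M x y = -Tm M y x := by
  rw [Tm, Tm, act_swap, M.L.form_comm x y, smul_neg]

variable {M}

lemma move_right {x y z : M.L.N} (hx : M.L.form x x = 0) (hy : M.L.form x y ≠ 0)
    (hz : M.L.form x z ≠ 0) (hE : Tm M x z - Tm M x y ∈ EE T X) :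
    Cj (EE T X) (Tm M x y) (Tm M x z) := by
  obtain ⟨w, hw⟩ : ∃ w, w = (M.L.form x z)⁻¹ • z - (M.L.form x y)⁻¹ • y := ⟨_, rfl⟩
  have h1 : M.L.form x w = 0 := by
    rw [hw, map_sub, map_smul, map_smul, smul_eq_mul, smul_eq_mul, inv_mul_cancel₀ hz,
      inv_mul_cancel₀ hy, sub_self]
  have h2 : M.act x w = Tm M x z - Tm M x y := by
    rw [hw, map_sub, map_smul, map_smul, Tm, Tm]
  have h3 : M.act x y * M.act x w - M.act x w * M.act x y = M.L.form x y • M.act x w := by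
    rw [act_comm M, hx, h1, zero_smul, sub_zero, sub_zero, map_smul, map_smul,
      M.act_self, smul_zero, add_zero, LinearMap.smul_apply, M.L.form_comm y x]
  have h4 : Tm M x y * M.act x w - M.act x w * Tm M x y = M.act x w := by
    rw [Tm, smul_mul_assoc, mul_smul_comm, ← smul_sub, h3, smul_smul, inv_mul_cancel₀ hy, one_smul]
  have h5 := move (E := EE T X) (by rw [h2]; exact hE) h4
  have h6 : Tm M x y + M.act x w = Tm M x z := by rw [h2]; abel
  rwa [h6] at h5

lemma move_left {x y z : M.L.N} (hx : M.L.form x x = 0) (hy : M.L.form y x ≠ 0)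
    (hz : M.L.form z x ≠ 0) (hE : Tm M z x - Tm M y x ∈ EE T X) :
    Cj (EE T X) (Tm M y x) (Tm M z x) := by
  rw [Tm_swap, Tm_swap M z x]
  refine (move_right hx (by rwa [M.L.form_comm]) (by rwa [M.L.form_comm]) ?_).neg
  rw [Tm_swap M z x, Tm_swap M y x] at hE
  have h := (EE T X).neg_mem hE
  have e : -(-Tm M x z - -Tm M x y) = Tm M x z - Tm M x y := by abel
  rwa [e] at h

lemma exists_middle {a b : M.L.N} (hab : M.L.form a b ≠ 0) :
    ∃ c, M.L.form c c = 0 ∧ M.L.form M.L.α c ≠ 0 ∧ M.L.form a c ≠ 0 := by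
  by_contra hcon
  push Not at hcon
  have hαβ := M.L.form_αβ
  have hβα : M.L.form M.L.β M.L.α = -1 := by rw [M.L.form_comm, hαβ]
  have key : ∀ w, M.L.form M.L.α w = 0 → M.L.form M.L.β w = 0 →
      M.L.form a M.L.β + M.L.form a w + M.L.form w w / 2 * M.L.form a M.L.α = 0 := by
    intro w h1 h2
    have h1' : M.L.form w M.L.α = 0 := by rw [M.L.form_comm, h1]
    have h2' : M.L.form w M.L.β = 0 := by rw [M.L.form_comm, h2]
    have h3 := hcon (M.L.β + w + (M.L.form w w / 2) • M.L.α) (by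
      simp only [map_add, LinearMap.add_apply, map_smul, LinearMap.smul_apply, smul_eq_mul,
        M.L.form_α, M.L.form_β, h1, h2, h1', h2', hαβ, hβα]
      ring) (by
      simp only [map_add, map_smul, smul_eq_mul, M.L.form_α, h1, hαβ]
      norm_num)
    simpa only [map_add, map_smul, smul_eq_mul] using h3
  have h0 : M.L.form a M.L.β = 0 := by
    have := key 0 (map_zero _) (map_zero _)
    simpa using this
  have hpm : ∀ w, M.L.form M.L.α w = 0 → M.L.form M.L.β w = 0 →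
      M.L.form a w = 0 ∧ M.L.form w w * M.L.form a M.L.α = 0 := by
    intro w h1 h2
    have h3 := key w h1 h2
    have h4 := key (-w) (by rw [map_neg, h1, neg_zero]) (by rw [map_neg, h2, neg_zero])
    simp only [map_neg, LinearMap.neg_apply, neg_neg] at h4
    rw [h0] at h3 h4
    constructor <;> linarith
  obtain ⟨h, ha, hb, hh⟩ := M.L.ample
  have h1 : M.L.form a M.L.α = 0 := (mul_eq_zero.1 (hpm h ha hb).2).resolve_left hh
  obtain ⟨w, hw⟩ : ∃ w, w = b + M.L.form b M.L.β • M.L.α + M.L.form b M.L.α • M.L.β := ⟨_, rfl⟩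
  have hw1 : M.L.form M.L.α w = 0 := by
    rw [hw]
    simp only [map_add, map_smul, smul_eq_mul, M.L.form_α, hαβ, M.L.form_comm M.L.α b]
    ring
  have hw2 : M.L.form M.L.β w = 0 := by
    rw [hw]
    simp only [map_add, map_smul, smul_eq_mul, M.L.form_β, hβα, M.L.form_comm M.L.β b]
    ring
  have h2 := (hpm w hw1 hw2).1
  rw [hw] at h2
  simp only [map_add, map_smul, smul_eq_mul, h1, h0, mul_zero, add_zero] at h2
  exact hab h2

/-- The operators `act x y` are given by cycles. -/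
def Alg (M : T.BExtended X) : Prop := ∀ x y, M.act x y ∈ EE T X

lemma Tm_mem (hB : Alg M) (x y : M.L.N) : Tm M x y ∈ EE T X := (EE T X).smul_mem (hB x y) _

/-- All normalized operators of isotropic pairs are conjugate. -/
lemma conj_pairs (hB : Alg M) {a b : M.L.N} (ha : M.L.form a a = 0) (hab : M.L.form a b ≠ 0) :
    Cj (EE T X) (Tm M M.L.α M.L.β) (Tm M a b) := by
  obtain ⟨c, hc, h1, h2⟩ := exists_middle (M := M) hab
  have h3 : M.L.form M.L.α M.L.β ≠ 0 := by rw [M.L.form_αβ]; norm_num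
  have hE : ∀ x y z w, Tm M x y - Tm M z w ∈ EE T X := fun x y z w =>
    (EE T X).sub_mem (Tm_mem hB x y) (Tm_mem hB z w)
  exact ((move_right M.L.form_α h3 h1 (hE _ _ _ _)).trans
    (move_left hc h1 h2 (hE _ _ _ _))).trans (move_right ha h2 hab (hE _ _ _ _))

/-- `act x w` is given by cycles for all `w` orthogonal to `x`. -/
def Fix (M : T.BExtended X) (x : M.L.N) : Prop := ∀ w, M.L.form x w = 0 → M.act x w ∈ EE T X

lemma Fix.diff {x y z : M.L.N} (h : Fix M x) (hy : M.L.form x y ≠ 0) (hz : M.L.form x z ≠ 0) :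
    Tm M x z - Tm M x y ∈ EE T X := by
  obtain ⟨w, hw⟩ : ∃ w, w = (M.L.form x z)⁻¹ • z - (M.L.form x y)⁻¹ • y := ⟨_, rfl⟩
  have h1 : M.L.form x w = 0 := by
    rw [hw, map_sub, map_smul, map_smul, smul_eq_mul, smul_eq_mul, inv_mul_cancel₀ hz,
      inv_mul_cancel₀ hy, sub_self]
  have h2 : M.act x w = Tm M x z - Tm M x y := by
    rw [hw, map_sub, map_smul, map_smul, Tm, Tm]
  rw [← h2]
  exact h w h1

lemma fix_β : Fix M M.L.β := fun w hw => mixed_of (M.cup w hw)

lemma bracket_mem {x y z w : M.L.N} (h : M.act x y ∈ EE T X) (h' : M.act z w ∈ EE T X) :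
    M.act (M.L.form y z • x - M.L.form x z • y) w + M.act z (M.L.form y w • x - M.L.form x w • y) ∈
      EE T X := by
  rw [← act_comm M]
  exact (EE T X).sub_mem ((EE T X).mul_mem h h') ((EE T X).mul_mem h' h)

/-- Case 1: `b` is not orthogonal to `β`. -/
lemma alg_of {b : M.L.N} (hb : M.L.form b b = 0) (hf : M.L.form M.L.β b ≠ 0) (hfix : Fix M b) :
    Alg M := by
  have hfb : M.L.form b M.L.β = M.L.form M.L.β b := M.L.form_comm _ _
  -- orthogonal decomposition
  have dec : ∀ z : M.L.N, ∃ (z₀ : M.L.N) (s t : ℚ), M.L.form M.L.β z₀ = 0 ∧ M.L.form b z₀ = 0 ∧ z = s • M.L.β + t • b + z₀ := by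
    intro z
    refine ⟨z - (M.L.form b z / M.L.form M.L.β b) • M.L.β - (M.L.form M.L.β z / M.L.form M.L.β b) • b,
      M.L.form b z / M.L.form M.L.β b, M.L.form M.L.β z / M.L.form M.L.β b, ?_, ?_, by abel⟩
    · simp only [map_sub, map_smul, smul_eq_mul, M.L.form_β]
      field_simp
      ring
    · simp only [map_sub, map_smul, smul_eq_mul, hb, hfb]
      field_simp
      ring
  -- the commutator of orthogonal vectors
  have com : ∀ l m, M.L.form M.L.β l = 0 → M.L.form b l = 0 → M.L.form M.L.β m = 0 → M.L.form b m = 0 →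
      M.L.form l m • M.act b M.L.β - M.L.form M.L.β b • M.act l m ∈ EE T X := by
    intro l m h1 h2 h3 h4
    have h := bracket_mem (fix_β l h1) (hfix m h4)
    rw [M.L.form_comm l b, h2, h3, zero_smul, zero_smul, zero_sub, sub_zero, map_neg, map_smul,
      map_smul, LinearMap.neg_apply, LinearMap.smul_apply] at h
    rwa [sub_eq_neg_add]
  obtain ⟨l, hl1, hl2, hl3⟩ : ∃ l, M.L.form M.L.β l = 0 ∧ M.L.form b l = 0 ∧ M.L.form l l ≠ 0 := by
    by_contra hcon
    push Not at hcon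
    have hz : ∀ l, M.L.form M.L.β l = 0 → M.L.form b l = 0 → l = 0 := by
      intro l h1 h2
      apply M.L.form_nondeg
      intro z
      obtain ⟨z₀, s, t, k1, k2, rfl⟩ := dec z
      have k3 := hcon (l + z₀) (by rw [map_add, h1, k1, add_zero]) (by rw [map_add, h2, k2, add_zero])
      simp only [map_add, LinearMap.add_apply, hcon l h1 h2, hcon z₀ k1 k2,
        M.L.form_comm z₀ l] at k3
      have k4 : M.L.form l z₀ = 0 := by linarith
      rw [map_add, map_add, map_smul, map_smul, M.L.form_comm l M.L.β, M.L.form_comm l b, h1, h2, k4]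
      simp
    obtain ⟨h, ha, hbh, hh⟩ := M.L.ample
    obtain ⟨z₀, s, t, k1, k2, k3⟩ := dec h
    rw [hz z₀ k1 k2, add_zero] at k3
    have k4 : t = 0 := by
      rw [k3, map_add, map_smul, map_smul, M.L.form_β, smul_zero, zero_add, smul_eq_mul] at hbh
      exact (mul_eq_zero.1 hbh).resolve_right hf
    apply hh
    rw [k3, k4, zero_smul, add_zero, map_smul, map_smul, LinearMap.smul_apply, M.L.form_β]
    simp
  have hbβ : M.act b M.L.β ∈ EE T X := by
    have h := com l l hl1 hl2 hl1 hl2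
    rw [M.act_self, smul_zero, sub_zero] at h
    have h' := (EE T X).smul_mem h (M.L.form l l)⁻¹
    rwa [smul_smul, inv_mul_cancel₀ hl3, one_smul] at h'
  have hlm : ∀ l m, M.L.form M.L.β l = 0 → M.L.form b l = 0 → M.L.form M.L.β m = 0 → M.L.form b m = 0 →
      M.act l m ∈ EE T X := by
    intro l m h1 h2 h3 h4
    have h := (EE T X).sub_mem ((EE T X).smul_mem hbβ (M.L.form l m)) (com l m h1 h2 h3 h4)
    rw [sub_sub_cancel] at h
    have h' := (EE T X).smul_mem h (M.L.form M.L.β b)⁻¹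
    rwa [smul_smul, inv_mul_cancel₀ hf, one_smul] at h'
  intro z w
  obtain ⟨z₀, s, t, k1, k2, rfl⟩ := dec z
  obtain ⟨w₀, s', t', k1', k2', rfl⟩ := dec w
  have q1 := fix_β w₀ k1'
  have q2 := fix_β z₀ k1
  have q3 := hfix w₀ k2'
  have q4 := hfix z₀ k2
  have q5 := hlm z₀ w₀ k1 k2 k1' k2'
  simp only [map_add, map_smul, LinearMap.add_apply, LinearMap.smul_apply, M.act_self, smul_zero,
    zero_add, add_zero, act_swap M M.L.β b, act_swap M z₀ M.L.β, act_swap M z₀ b]
  have sm : ∀ {f : End ℚ (T.H X)}, f ∈ EE T X → ∀ r : ℚ, r • f ∈ EE T X :=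
    fun h r => (EE T X).smul_mem h r
  have ng : ∀ {f : End ℚ (T.H X)}, f ∈ EE T X → -f ∈ EE T X := fun h => (EE T X).neg_mem h
  have ad : ∀ {f g : End ℚ (T.H X)}, f ∈ EE T X → g ∈ EE T X → f + g ∈ EE T X :=
    fun h h' => (EE T X).add_mem h h'
  repeat' first
    | apply ad
    | apply sm
    | apply ng
    | assumption

/-- Case 2: `b` is orthogonal to `β` and not a multiple of `β`. -/
lemma conj_orth {a b : M.L.N} (hb : M.L.form b b = 0) (hf : M.L.form M.L.β b = 0)
    (hne : ∀ s : ℚ, b ≠ s • M.L.β) (hfix : Fix M b) (hab : M.L.form b a ≠ 0) :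
    Cj (EE T X) (Tm M M.L.β M.L.α) (Tm M b a) := by
  have hβα : M.L.form M.L.β M.L.α = -1 := by rw [M.L.form_comm, M.L.form_αβ]
  have hfb : M.L.form b M.L.β = 0 := by rw [M.L.form_comm, hf]
  obtain ⟨x₀, hx1, hx2⟩ : ∃ x, M.L.form M.L.β x = 0 ∧ M.L.form b x ≠ 0 := by
    by_contra hcon
    push Not at hcon
    apply hne (-M.L.form b M.L.α)
    rw [← sub_eq_zero]
    apply M.L.form_nondeg
    intro z
    have h1 := hcon (z + M.L.form M.L.β z • M.L.α) (by
      rw [map_add, map_smul, hβα, smul_eq_mul]; ring)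
    rw [map_add, map_smul, smul_eq_mul] at h1
    rw [map_sub, LinearMap.sub_apply, map_smul, LinearMap.smul_apply, smul_eq_mul]
    linarith
  obtain ⟨x, p1, p2, p3⟩ : ∃ x, M.L.form M.L.β x = 0 ∧ M.L.form b x = 1 ∧ M.L.form x x = 0 := by
    obtain ⟨x', hx'⟩ : ∃ x', x' = (M.L.form b x₀)⁻¹ • x₀ := ⟨_, rfl⟩
    have h1 : M.L.form M.L.β x' = 0 := by rw [hx', map_smul, hx1, smul_zero]
    have h2 : M.L.form b x' = 1 := by rw [hx', map_smul, smul_eq_mul, inv_mul_cancel₀ hx2]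
    have h2' : M.L.form x' b = 1 := by rw [M.L.form_comm, h2]
    refine ⟨x' - (M.L.form x' x' / 2) • b, ?_, ?_, ?_⟩
    · rw [map_sub, map_smul, h1, hf]; simp
    · rw [map_sub, map_smul, h2, hb]; simp
    · simp only [map_sub, map_smul, LinearMap.sub_apply, LinearMap.smul_apply, smul_eq_mul, h2,
        h2', hb]
      ring
  have p1' : M.L.form x M.L.β = 0 := by rw [M.L.form_comm, p1]
  have p2' : M.L.form x b = 1 := by rw [M.L.form_comm, p2]
  obtain ⟨y, r1, r2, r3, r4⟩ : ∃ y, M.L.form M.L.β y = 1 ∧ M.L.form b y = 0 ∧ M.L.form x y = 0 ∧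
      M.L.form y y = 0 := by
    obtain ⟨y₁, hy₁⟩ : ∃ y₁, y₁ = -M.L.α + M.L.form b M.L.α • x := ⟨_, rfl⟩
    have h1 : M.L.form M.L.β y₁ = 1 := by
      rw [hy₁, map_add, map_neg, map_smul, hβα, p1]; simp
    have h2 : M.L.form b y₁ = 0 := by
      rw [hy₁, map_add, map_neg, map_smul, p2, smul_eq_mul]; ring
    obtain ⟨y₂, hy₂⟩ : ∃ y₂, y₂ = y₁ - M.L.form x y₁ • b := ⟨_, rfl⟩
    have h3 : M.L.form M.L.β y₂ = 1 := by rw [hy₂, map_sub, map_smul, h1, hf]; simp
    have h4 : M.L.form b y₂ = 0 := by rw [hy₂, map_sub, map_smul, h2, hb]; simp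
    have h5 : M.L.form x y₂ = 0 := by rw [hy₂, map_sub, map_smul, p2', smul_eq_mul]; ring
    have h3' : M.L.form y₂ M.L.β = 1 := by rw [M.L.form_comm, h3]
    refine ⟨y₂ - (M.L.form y₂ y₂ / 2) • M.L.β, ?_, ?_, ?_, ?_⟩
    · rw [map_sub, map_smul, h3, M.L.form_β]; simp
    · rw [map_sub, map_smul, h4, hfb]; simp
    · rw [map_sub, map_smul, h5, p1']; simp
    · simp only [map_sub, map_smul, LinearMap.sub_apply, LinearMap.smul_apply, smul_eq_mul, h3,
        h3', M.L.form_β]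
      ring
  have r1' : M.L.form y M.L.β = 1 := by rw [M.L.form_comm, r1]
  have r2' : M.L.form y b = 0 := by rw [M.L.form_comm, r2]
  have r3' : M.L.form y x = 0 := by rw [M.L.form_comm, r3]
  have Eβx : M.act M.L.β x ∈ EE T X := fix_β x p1
  have Eby : M.act b y ∈ EE T X := hfix y r2
  have Ecom : M.act M.L.β y - M.act b x ∈ EE T X := by
    have h := bracket_mem Eβx Eby
    rw [p2', hf, r3, r1, one_smul, zero_smul, sub_zero, zero_smul, one_smul, zero_sub,
      map_neg] at h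
    rwa [sub_eq_add_neg]
  have f1 : M.L.form (M.L.β + b) y = 1 := by
    rw [map_add, LinearMap.add_apply, r1, r2, add_zero]
  have f2 : M.L.form (M.L.β + b) x = 1 := by
    rw [map_add, LinearMap.add_apply, p1, p2, zero_add]
  have f3 : M.L.form (M.L.β + b) (M.L.β + b) = 0 := by
    simp only [map_add, LinearMap.add_apply, M.L.form_β, hf, hfb, hb]
    norm_num
  -- the chain
  have s1 : Cj (EE T X) (Tm M M.L.β M.L.α) (Tm M M.L.β y) :=
    move_right M.L.form_β (by rw [hβα]; norm_num) (by rw [r1]; norm_num)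
      (fix_β.diff (by rw [hβα]; norm_num) (by rw [r1]; norm_num))
  have s2 : Cj (EE T X) (Tm M M.L.β y) (Tm M (M.L.β + b) y) := by
    refine move_left r4 (by rw [r1]; norm_num) (by rw [f1]; norm_num) ?_
    rw [Tm, Tm, f1, r1, inv_one, one_smul, one_smul, map_add, LinearMap.add_apply,
      add_sub_cancel_left]
    exact Eby
  have s3 : Cj (EE T X) (Tm M (M.L.β + b) y) (Tm M (M.L.β + b) x) := by
    refine move_right f3 (by rw [f1]; norm_num) (by rw [f2]; norm_num) ?_
    rw [Tm, Tm, f1, f2, inv_one, one_smul, one_smul, map_add, LinearMap.add_apply,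
      LinearMap.add_apply]
    have e : M.act M.L.β x + M.act b x - (M.act M.L.β y + M.act b y) =
        M.act M.L.β x - M.act b y - (M.act M.L.β y - M.act b x) := by abel
    rw [e]
    exact (EE T X).sub_mem ((EE T X).sub_mem Eβx Eby) Ecom
  have s4 : Cj (EE T X) (Tm M (M.L.β + b) x) (Tm M b x) := by
    refine move_left p3 (by rw [f2]; norm_num) (by rw [p2]; norm_num) ?_
    rw [Tm, Tm, f2, p2, inv_one, one_smul, one_smul, map_add, LinearMap.add_apply]
    have e : M.act b x - (M.act M.L.β x + M.act b x) = -M.act M.L.β x := by abel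
    rw [e]
    exact (EE T X).neg_mem Eβx
  have s5 : Cj (EE T X) (Tm M b x) (Tm M b a) :=
    move_right hb (by rw [p2]; norm_num) hab (hfix.diff (by rw [p2]; norm_num) hab)
  exact (((s1.trans s2).trans s3).trans s4).trans s5

/-- The grading operators are conjugate. -/
lemma conj_all {a b : M.L.N} (ha : M.L.form a a = 0) (hb : M.L.form b b = 0) (hab : M.L.form a b ≠ 0)
    (hfix : Fix M b) : Cj (EE T X) (Tm M M.L.α M.L.β) (Tm M a b) := by
  by_cases hf : M.L.form M.L.β b = 0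
  · have hba : M.L.form b a ≠ 0 := by rwa [M.L.form_comm]
    rw [Tm_swap, Tm_swap M a b]
    apply Cj.neg
    by_cases hne : ∀ s : ℚ, b ≠ s • M.L.β
    · exact conj_orth hb hf hne hfix hba
    · push Not at hne
      obtain ⟨s, rfl⟩ := hne
      have hs : s ≠ 0 := by
        rintro rfl
        rw [zero_smul, map_zero, LinearMap.zero_apply] at hba
        exact hba rfl
      have h1 : M.L.form M.L.β a ≠ 0 := by
        intro h
        rw [map_smul, LinearMap.smul_apply, h, smul_zero] at hba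
        exact hba rfl
      have h2 : Tm M (s • M.L.β) a = Tm M M.L.β a := by
        rw [Tm, Tm, map_smul, LinearMap.smul_apply, map_smul, LinearMap.smul_apply, smul_smul,
          smul_eq_mul, mul_inv]
        congr 1
        field_simp
      rw [h2]
      have h3 : M.L.form M.L.β M.L.α ≠ 0 := by rw [M.L.form_comm, M.L.form_αβ]; norm_num
      exact move_right M.L.form_β h3 h1 (fix_β.diff h3 h1)
  · exact conj_pairs (alg_of hb hf hfix) ha hab

end LLV

/-- A mixed map which preserves the degree is given by cycles of one codimension. -/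
lemma zero_part {f : T.H X →ₗ[ℚ] T.H Y} (hf : f ∈ T.mixed X Y)
    (h : T.deg Y ∘ₗ f = f ∘ₗ T.deg X) : f ∈ T.cor X Y 0 := by
  let Φ : End ℚ (T.H X →ₗ[ℚ] T.H Y) :=
    LinearMap.llcomp ℚ (T.H X) (T.H Y) (T.H Y) (T.deg Y) -
      (LinearMap.lcomp ℚ (T.H Y) (T.deg X))
  have hΦ : ∀ g, Φ g = T.deg Y ∘ₗ g - g ∘ₗ T.deg X := fun g => rfl
  have h1 : ∀ j, T.cor X Y j ≤ Φ.eigenspace (2 * (j : ℚ)) := by
    intro j g hg
    have hg' : T.deg Y ∘ₗ g = g ∘ₗ T.deg X + (2 * (j : ℚ)) • g :=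
      LinearMap.ext fun x => T.cor_deg X Y j g hg x
    rw [Module.End.mem_eigenspace_iff, hΦ, hg', add_sub_cancel_left]
  have h2 : iSupIndep fun j : ℤ => Φ.eigenspace (2 * (j : ℚ)) :=
    Φ.eigenspaces_iSupIndep.comp (f := fun j : ℤ => (2 * (j : ℚ))) (fun i j hij => by
      have : (2 : ℚ) * i = 2 * j := hij
      exact_mod_cast (mul_left_cancel₀ two_ne_zero this))
  rw [CycleTheory.mixed, iSup_split_single _ (0 : ℤ)] at hf
  obtain ⟨g, hg, k, hk, rfl⟩ := Submodule.mem_sup.1 hf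
  have h3 : k ∈ ⨆ (j : ℤ) (_ : j ≠ 0), Φ.eigenspace (2 * (j : ℚ)) :=
    (iSup₂_mono fun j _ => h1 j) hk
  have h4 : k ∈ Φ.eigenspace (2 * ((0 : ℤ) : ℚ)) := by
    have h5 := h1 0 hg
    rw [Module.End.mem_eigenspace_iff] at h5 ⊢
    have h6 : Φ (g + k) = 0 := by rw [hΦ, h, sub_self]
    rw [map_add, h5] at h6
    simp only [Int.cast_zero, mul_zero, zero_smul, zero_add] at h6 ⊢
    exact h6
  have h7 : k = 0 := by
    have := (h2 0).le_bot ⟨h4, h3⟩
    exact (Submodule.mem_bot ℚ).1 this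
  rw [h7, add_zero]
  exact hg

/-- A graded isomorphism. -/
theorem graded (M : T.BExtended X) (M' : T.BExtended Y) (e : BEquivalence M M') :
    T.MotiveIso X Y := by
  obtain ⟨a, ha⟩ : ∃ a, e.φ a = M'.L.α := e.surj _
  obtain ⟨b, hb⟩ : ∃ b, e.φ b = M'.L.β := e.surj _
  have h1 : M.L.form a a = 0 := by
    have := e.form_φ a a
    rw [ha, M'.L.form_α] at this
    exact (mul_eq_zero.1 this.symm).resolve_left e.c_ne
  have h2 : e.c * M.L.form a b = -1 := by
    have := e.form_φ a b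
    rw [ha, hb, M'.L.form_αβ] at this
    exact this.symm
  have h3 : M.L.form a b ≠ 0 := by
    intro h
    rw [h, mul_zero] at h2
    norm_num at h2
  have h4 : (M.L.form a b)⁻¹ = -e.c :=
    (eq_inv_of_mul_eq_one_left (by linarith : (-e.c) * M.L.form a b = 1)).symm
  have h1b : M.L.form b b = 0 := by
    have := e.form_φ b b
    rw [hb, M'.L.form_β] at this
    exact (mul_eq_zero.1 this.symm).resolve_left e.c_ne
  have hfix : Fix M b := by
    intro w hw
    have q1 : M'.L.form M'.L.β (e.φ w) = 0 := by rw [← hb, e.form_φ, hw, mul_zero]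
    have q2 := e.act_φ b w
    rw [hb] at q2
    have q3 : M.act b w = e.c⁻¹ • (e.v' ∘ₗ M'.act M'.L.β (e.φ w) ∘ₗ e.v) := by
      have q4 : e.v' ∘ₗ e.v ∘ₗ M.act b w = M.act b w := by
        rw [← LinearMap.comp_assoc, e.v'_v, LinearMap.id_comp]
      rw [q2, LinearMap.comp_smul, smul_smul, inv_mul_cancel₀ e.c_ne, one_smul, q4]
    rw [q3]
    exact (EE T X).smul_mem (mixed_comp (mixed_comp e.v_mem (mixed_of (M'.cup _ q1))) e.v'_mem) _
  obtain ⟨g, hg, g', hg', k1, k2, k3⟩ := conj_all h1 h1b h3 hfix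
  have d1 : T.deg X = (T.dim X : ℚ) • 1 - (2 : ℚ) • Tm M M.L.α M.L.β := by
    rw [M.grading, Tm, M.L.form_αβ]
    norm_num
  have d2 : T.deg Y ∘ₗ e.v = e.v ∘ₗ ((T.dim X : ℚ) • 1 - (2 : ℚ) • Tm M a b) := by
    have h5 := e.act_φ a b
    rw [ha, hb] at h5
    rw [M'.grading, ← e.dim_eq, Tm, h4, LinearMap.add_comp, LinearMap.smul_comp,
      LinearMap.smul_comp, h5, LinearMap.comp_sub, LinearMap.comp_smul, LinearMap.comp_smul,
      LinearMap.comp_smul, neg_smul, smul_neg, sub_neg_eq_add]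
    rfl
  obtain ⟨u, hu⟩ : ∃ u, u = e.v ∘ₗ g := ⟨_, rfl⟩
  obtain ⟨u', hu'⟩ : ∃ u', u' = g' ∘ₗ e.v' := ⟨_, rfl⟩
  have i1 : u' ∘ₗ u = LinearMap.id := by
    calc u' ∘ₗ u = g' ∘ₗ (e.v' ∘ₗ e.v) ∘ₗ g := by rw [hu, hu']; rfl
      _ = g' ∘ₗ g := by rw [e.v'_v]; rfl
      _ = _ := k1
  have i2 : u ∘ₗ u' = LinearMap.id := by
    calc u ∘ₗ u' = e.v ∘ₗ (g ∘ₗ g') ∘ₗ e.v' := by rw [hu, hu']; rfl
      _ = e.v ∘ₗ LinearMap.id ∘ₗ e.v' := by
        have : g ∘ₗ g' = LinearMap.id := k2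
        rw [this]
      _ = _ := e.v_v'
  have k3' : g ∘ₗ Tm M M.L.α M.L.β = Tm M a b ∘ₗ g := k3
  have k4 : g ∘ₗ ((T.dim X : ℚ) • 1 - (2 : ℚ) • Tm M M.L.α M.L.β) =
      (T.dim X : ℚ) • g - (2 : ℚ) • (Tm M a b ∘ₗ g) := by
    rw [LinearMap.comp_sub, LinearMap.comp_smul, LinearMap.comp_smul, k3']; rfl
  have i3 : T.deg Y ∘ₗ u = u ∘ₗ T.deg X := by
    calc T.deg Y ∘ₗ u = (T.deg Y ∘ₗ e.v) ∘ₗ g := by rw [hu]; rfl
      _ = e.v ∘ₗ (((T.dim X : ℚ) • 1 - (2 : ℚ) • Tm M a b) ∘ₗ g) := by rw [d2]; rfl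
      _ = e.v ∘ₗ ((T.dim X : ℚ) • g - (2 : ℚ) • (Tm M a b ∘ₗ g)) := by
        rw [LinearMap.sub_comp, LinearMap.smul_comp, LinearMap.smul_comp]; rfl
      _ = e.v ∘ₗ (g ∘ₗ ((T.dim X : ℚ) • 1 - (2 : ℚ) • Tm M M.L.α M.L.β)) := by rw [k4]
      _ = u ∘ₗ T.deg X := by rw [← d1, hu]; rfl
  have i4 : T.deg X ∘ₗ u' = u' ∘ₗ T.deg Y := by
    calc T.deg X ∘ₗ u' = (u' ∘ₗ u) ∘ₗ T.deg X ∘ₗ u' := by rw [i1]; rfl
      _ = u' ∘ₗ (u ∘ₗ T.deg X) ∘ₗ u' := rfl
      _ = u' ∘ₗ T.deg Y ∘ₗ (u ∘ₗ u') := by rw [← i3]; rfl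
      _ = _ := by rw [i2]; rfl
  have m1 : u ∈ T.cor X Y 0 := zero_part (hu ▸ mixed_comp hg e.v_mem) i3
  have m2 : u' ∈ T.cor Y X 0 := zero_part (hu' ▸ mixed_comp e.v'_mem hg') i4
  exact ⟨u, m1, u', m2, LinearMap.congr_fun i1, LinearMap.congr_fun i2⟩

end Pool.Agent.Y121.OL
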